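import Mathlib
import Pool.Agent.H85.GR.Fin3

/-!
# Closed walks in the graph of overlapping 321-avoiding permutations of size `n`: the number of the closed walks of every
length `d ≤ n`
-/

set_option autoImplicit false

open Finset

noncomputable section

namespace Pool.Agent.Results.MP_26d62f_co.AllLengthsUpToN

/-- The permutation `σ` avoids the pattern 321: there are no positions `i < j < k` with `σ i > σ j > σ k`. -/
def Avoids321 {m : ℕ} (σ : Equiv.Perm (Fin m)) : Prop :=
  ∀ i j k : Fin m, i < j → j < k → ¬ (σ k < σ j ∧ σ j < σ i)

/-- The standardization of a word `x` with distinct entries: its value at `i` is the number of entries smaller than `x i`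
(standardized permutations are written with the values `0, 1, …, m - 1`). -/
def standardization {m k : ℕ} (x : Fin m → Fin k) (i : Fin m) : ℕ := (univ.filter (fun j => x j < x i)).card

/-- The closed walks of length `d` in `G(n, 321)`: sequences of edges `e i`, `i` mod `d`. An edge is a 321-avoiding permutation
of size `n + 1`; its tail is the standardization of its first `n` entries, its head the standardization of its last `n`
entries, and the head of `e i` is the tail of `e (i + 1)`. -/
def closedWalks (n d : ℕ) : Set (ZMod d → Equiv.Perm (Fin (n + 1))) :=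
  {e | ∀ i, Avoids321 (e i) ∧
    standardization (fun a : Fin n => e i a.succ) = standardization (fun a : Fin n => e (i + 1) a.castSucc)}

/-- `W n d` is the number of closed walks of length `d` in `G(n, 321)`. -/
def W (n d : ℕ) : ℕ := (closedWalks n d).ncard

/-- The binary words of length at most `r`. -/
abbrev Words (r : ℕ) := {l : List Bool // l.length ≤ r}

instance (r : ℕ) : Fintype (Words r) := (List.finite_length_le Bool r).fintype

open Polynomial in
/-- The entry of the matrix `M r` for the words `v` and `w`, with `z = X (1 - X)`. For two empty words it is `1 - X^2` if `r > 0`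
and `(1 - X)^2` if `r = 0`. Otherwise it is the sum of: `1` if `v = w`; `1` if `v` is `w` without its last letter; `z` if `w` is
`v` without its first letter; and, if `v` without its first letter is `w` without its last letter (so `v` and `w` have the same
length), `z` if this length is less than `r`, and `-z` if `v` begins with `true` and `w` ends with `false`. -/
def entry (r : ℕ) (v w : List Bool) : ℤ[X] :=
  if v = [] ∧ w = [] then (if r = 0 then (1 - X) ^ 2 else 1 - X ^ 2)
  else (if v = w then 1 else 0) + (if w ≠ [] ∧ w.dropLast = v then 1 else 0) + (if v ≠ [] ∧ v.tail = w then X * (1 - X) else 0) +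
    (if v ≠ [] ∧ w ≠ [] ∧ v.tail = w.dropLast then
      X * (1 - X) * ((if v.length < r then 1 else 0) - (if v.head? = some true ∧ w.getLast? = some false then 1 else 0)) else 0)

/-- The matrix `M r`, of size `2^(r + 1) - 1`, with polynomial entries. -/
def M (r : ℕ) : Matrix (Words r) (Words r) (Polynomial ℤ) := fun v w => entry r v.1 w.1

/-- `Δ r = det (M r)`, a polynomial with integer coefficients and constant term 1. -/
def Δ (r : ℕ) : Polynomial ℤ := (M r).det

/-- The coefficient of `X^k` in the power series `- X Δ'(X) / Δ(X)`, `Δ = Δ r`: for `k ≥ 1` it is the sum of the `k`-th powers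
of the reciprocals of the roots of `Δ r`. -/
def powerSum (r k : ℕ) : ℤ :=
  PowerSeries.coeff k (-(PowerSeries.X * PowerSeries.derivative ℤ (Δ r : PowerSeries ℤ)) * PowerSeries.invOfUnit (Δ r : PowerSeries ℤ) 1)

/-- The constant term of `Δ r` is 1, so `invOfUnit` in `powerSum` is the inverse. -/
theorem constant_term (r : ℕ) : (Δ r).coeff 0 = 1 := Pool.Agent.H85.GR.const_MP r

/-- For all `1 ≤ d ≤ n`, written as `n = e d + r` with `e ≥ 1` (for instance `e = ⌊n/d⌋` and `r` the remainder), the number `W` of
closed walks of length `d` in `G(n, 321)` is given by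
`2 W = C(2d, d) - 4^d + 2 e (d - 1) C(2d - 2, d - 1) + 2 ∑_{1 ≤ k ≤ d} (powerSum r k) C(2d - 1 - k, d - 1)`, plus
`2 d (Cat_(n+1) - 2^(d-1))` if `n = d`. -/
theorem result (n d e r : ℕ) (hd : 1 ≤ d) (he : 1 ≤ e) (hn : n = e * d + r) :
    2 * (W n d : ℤ) = (2 * d).choose d - 4 ^ d + 2 * e * ((d - 1) * (2 * d - 2).choose (d - 1)) +
      2 * ∑ k ∈ Icc 1 d, powerSum r k * ((2 * d - 1 - k).choose (d - 1) : ℤ) +
      (if n = d then 2 * d * ((catalan (n + 1) : ℤ) - 2 ^ (d - 1)) else 0) := by
  have hW : W n d = Pool.Agent.H63.CY.W n d := rfl
  have h : ∀ k, powerSum r k = Pool.Agent.H85.GR.ps (Pool.Agent.H85.GR.Mdir r).det k := by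
    intro k
    rw [← Pool.Agent.H85.GR.det_coe]
    rfl
  rw [hW, Pool.Agent.H85.GR.W_le hd he hn]
  simp only [h]

end Pool.Agent.Results.MP_26d62f_co.AllLengthsUpToN
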