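import Mathlib
import Pool.Agent.H63.CY.Fin

/-!
# Closed walks of length `d` in the graph of overlapping 321-avoiding permutations of size `n`: exact number when `d`
divides `n + 1`
-/

set_option autoImplicit false

open Finset

noncomputable section

namespace Pool.Agent.Results.MP_26d62f_co.ResidueMinusOne

/-- The permutation `σ` avoids the pattern 321: there are no positions `i < j < k` with `σ i > σ j > σ k`. -/
def Avoids321 {m : ℕ} (σ : Equiv.Perm (Fin m)) : Prop :=
  ∀ i j k : Fin m, i < j → j < k → ¬ (σ k < σ j ∧ σ j < σ i)

/-- The standardization of a word `x` with distinct entries: its value at `i` is the number of entries smaller than `x i`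
(standardized permutations are written with the values `0, 1, …, m - 1`). -/
def standardization {m k : ℕ} (x : Fin m → Fin k) (i : Fin m) : ℕ := (univ.filter (fun j => x j < x i)).card

/-- The closed walks of length `d` in `G(n, 321)`: sequences of edges `e i`, `i` mod `d`. An edge is a 321-avoiding permutation
of size `n + 1`; its tail is the standardization of its first `n` entries, its head the standardization of its last `n`
entries, and the head of `e i` is the tail of `e (i + 1)`. -/
def closedWalks (n d : ℕ) : Set (ZMod d → Equiv.Perm (Fin (n + 1))) :=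
  {e | ∀ i, Avoids321 (e i) ∧
    standardization (fun a : Fin n => e i a.succ) = standardization (fun a : Fin n => e (i + 1) a.castSucc)}

/-- `W n d` is the number of closed walks of length `d` in `G(n, 321)`. -/
def W (n d : ℕ) : ℕ := (closedWalks n d).ncard

/-- For `n ≥ 2` and `n + 1 = e d`, the number `W n d` of closed walks of length `d` in `G(n, 321)` is given by
`2 W = 3 C(2d, d) - 4^d + 2 e (d - 1) C(2d - 2, d - 1)`, plus `2 d (Cat_(n+1) - 2^(d-1))` if `d = n + 1`. -/
theorem result (n d e : ℕ) (hn : 2 ≤ n) (h : n + 1 = e * d) :
    2 * (W n d : ℤ) = 3 * (2 * d).choose d - 4 ^ d + 2 * e * ((d - 1) * (2 * d - 2).choose (d - 1)) +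
      (if d = n + 1 then 2 * d * ((catalan (n + 1) : ℤ) - 2 ^ (d - 1)) else 0) := by
  have hW : W n d = Pool.Agent.H63.CY.W n d := rfl
  rw [hW]
  have hd : 1 ≤ d := by
    rcases Nat.eq_zero_or_pos d with h0 | h0
    · subst h0; omega
    · exact h0
  have he : 1 ≤ e := by
    rcases Nat.eq_zero_or_pos e with h0 | h0
    · subst h0; omega
    · exact h0
  rcases Nat.lt_or_ge e 2 with h1 | h1
  · obtain rfl : e = 1 := by omega
    have h2 : d = n + 1 := by omega
    subst h2
    rw [if_pos rfl]
    have h3 : (2 * (n + 1) - 2).choose (n + 1 - 1) = (2 * n).choose n := by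
      congr 1
    rw [Pool.Agent.H63.CY.main_succ hn, h3, Nat.add_sub_cancel]
    push_cast
    ring
  · have h2 : d < n := by
      have h3 : 2 * d ≤ e * d := Nat.mul_le_mul_right d h1
      rcases Nat.lt_or_ge d n with h4 | h4
      · exact h4
      · omega
    rw [if_neg (by omega), Pool.Agent.H63.CY.main_dvd hd h2 (Or.inr h), add_zero]

end Pool.Agent.Results.MP_26d62f_co.ResidueMinusOne
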