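import Mathlib
import Pool.Agent.H85.TM.G

/-!
# Closed walks in the graph of overlapping 321-avoiding permutations of size `n`: for all `n` and all lengths `d`, their number is
the trace of the `d`-th power of an explicit matrix of order `2^n - n`, and `2^n - n` is the least possible order
-/

set_option autoImplicit false

open Finset

noncomputable section

namespace Pool.Agent.Results.MP_26d62f_co.TransferMatrix

/-- The permutation `σ` avoids the pattern 321: there are no positions `i < j < k` with `σ i > σ j > σ k`. -/
def Avoids321 {m : ℕ} (σ : Equiv.Perm (Fin m)) : Prop :=
  ∀ i j k : Fin m, i < j → j < k → ¬ (σ k < σ j ∧ σ j < σ i)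

/-- The standardization of a word `x` with distinct entries: its value at `i` is the number of entries smaller than `x i`
(standardized permutations are written with the values `0, 1, …, m - 1`). -/
def standardization {m k : ℕ} (x : Fin m → Fin k) (i : Fin m) : ℕ := (univ.filter (fun j => x j < x i)).card

/-- The closed walks of length `d` in `G(n, 321)`: sequences of edges `e i`, `i` mod `d`. An edge is a 321-avoiding permutation
of size `n + 1`; its tail is the standardization of its first `n` entries, its head the standardization of its last `n`
entries, and the head of `e i` is the tail of `e (i + 1)`. -/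
def closedWalks (n d : ℕ) : Set (ZMod d → Equiv.Perm (Fin (n + 1))) :=
  {e | ∀ i, Avoids321 (e i) ∧
    standardization (fun a : Fin n => e i a.succ) = standardization (fun a : Fin n => e (i + 1) a.castSucc)}

/-- `W n d` is the number of closed walks of length `d` in `G(n, 321)`. -/
def W (n d : ℕ) : ℕ := (closedWalks n d).ncard

/-- The binary words of length `n`. The letters are numbered from the right: the letter `0` is the last one, the letter `n - 1`
the first one. -/
abbrev Word (n : ℕ) := Fin n → Bool

/-- The states: the word all of whose letters are `true`, and the words in which some letter `true` is (not necessarily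
immediately) followed by a letter `false`. So all words are states, except the `n` words which consist of `a ≥ 1` letters
`false` and then `n - a` letters `true`. -/
def IsState {n : ℕ} (w : Word n) : Prop := (∀ k, w k = true) ∨ ∃ l k, l < k ∧ w k = true ∧ w l = false

/-- The words of length `n` which are states. -/
abbrev State (n : ℕ) := {w : Word n // IsState w}

open Classical in
instance (n : ℕ) : Fintype (State n) := Subtype.fintype _

/-- The word `a` is obtained from `w` by keeping the last `b` letters `true`, for some `b ≥ 0`, and changing all other letters
`true` into `false`. -/
def Keeps {n : ℕ} (w a : Word n) : Prop := ∀ k, a k = true → w k = true ∧ ∀ l, l < k → w l = true → a l = true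

/-- A word of length `n + 1`: `w` followed by the last letter `true` if `a` has no letter `true` (that is `b = 0`), and otherwise
`a` followed by the last letter `false`. -/
def append {n : ℕ} (w a : Word n) : Word (n + 1) := if ∀ k, a k = false then Fin.cons true w else Fin.cons false a

open Classical in
/-- Delete the first letter of a word of length `n + 1`; if the result is not a state, replace it by the word all of whose
letters are `true`. -/
def cut {n : ℕ} (u : Word (n + 1)) : State n :=
  if h : IsState (fun k : Fin n => u k.castSucc) then ⟨fun k : Fin n => u k.castSucc, h⟩ else ⟨fun _ => true, Or.inl fun _ => rfl⟩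

/-- The matrix of a graph on the states: the state `w` has one outgoing edge for each `b` from 0 to the number of its letters
`true`, with head `cut (append w a)` where `a` is obtained from `w` by keeping the last `b` letters `true`. -/
def B (n : ℕ) : Matrix (State n) (State n) ℕ := fun w w' => Set.ncard {a : Word n | Keeps w.1 a ∧ cut (append w.1 a) = w'}

/-- Let `n ≥ 1`. The matrix `B n` has order `2^n - n`; for all `d ≥ 1` the number of closed walks of length `d` in `G(n, 321)` is
the trace of its `d`-th power; and no matrix of smaller order, over any field of characteristic 0, has these traces. -/
theorem result (n : ℕ) (hn : 1 ≤ n) : Fintype.card (State n) = 2 ^ n - n ∧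
    (∀ d : ℕ, 1 ≤ d → W n d = (B n ^ d).trace) ∧
    ∀ (F : Type) [Field F] [CharZero F] (m : ℕ) (C : Matrix (Fin m) (Fin m) F),
      (∀ d : ℕ, 1 ≤ d → (W n d : F) = (C ^ d).trace) → 2 ^ n - n ≤ m := by
  refine ⟨Pool.Agent.H85.TM.card_RW n, fun d hd => ?_, fun F _ _ m C hC => Pool.Agent.H85.TM.min_order n hn F m C hC⟩
  have hW : W n d = Pool.Agent.H63.CY.W n d := rfl
  rw [hW, Pool.Agent.H85.TM.W_trace' n d hd]
  rfl

end Pool.Agent.Results.MP_26d62f_co.TransferMatrix
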